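import Pool.Agent.H474_Inj.HolMax
import Pool.Agent.H474_Inj.PSMax

/-!
# Fréchet modules without injective coresolutions: holomorphic functions

Let `U` be an open subset of the complex plane. No nonzero unital Fréchet module over the Fréchet
algebra `O(U)` has a coresolution by unital Fréchet modules that are injective among unital Fréchet
modules. For every point `z` of `U`, no nonzero Fréchet module over the Fréchet algebra (without
unit) of all holomorphic functions on `U` vanishing at `z` has an injective coresolution.
-/

open TopologicalSpace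

universe u

namespace Pool.Agent.Results.MP_8296bc_an.HolomorphicFunctions

open Pool.Agent.H474_Inj

theorem result (U : Opens ℂ) :
    (FrechetAlgebra (HolAlg U) ∧
      (Nonempty U → ∃ X : FrechetModule.{u} (HolAlg U), Unital X ∧ Nontrivial X.carrier) ∧
      ∀ X : FrechetModule.{u} (HolAlg U),
        Unital X → Nontrivial X.carrier → ¬ HasUInjectiveCoresolution X) ∧
    ∀ z : U, FrechetAlgebra (HolIdeal z) ∧
      (∃ X : FrechetModule.{u} (HolIdeal z), Nontrivial X.carrier) ∧
      ∀ X : FrechetModule.{u} (HolIdeal z), Nontrivial X.carrier →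
        ¬ HasInjectiveCoresolution X := by
  refine ⟨⟨instHolFrechet U, ?_, fun X _ hX h => ?_⟩,
    fun z => ⟨holIdeal_frechet z, exists_nontrivial _, fun X hX h => ?_⟩⟩
  · rintro ⟨z⟩
    exact ⟨charModule ⟨(evalHol z).toLinearMap, continuous_evalHol z⟩ (map_mul (evalHol z)),
      fun x => by
        show (evalHol z 1 : ℂ) • (x : ULift.{u} ℂ) = x
        rw [map_one, one_smul], (inferInstance : Nontrivial (ULift.{u} ℂ))⟩
  · obtain ⟨J, φ, hJ1, hJ, -, hφ⟩ := h.embeds
    exact not_subsingleton_of_embeds hφ hX (holAlg_vanish J hJ1 hJ)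
  · obtain ⟨J, φ, hJ, -, hφ⟩ := h.embeds
    exact not_subsingleton_of_embeds hφ hX (holIdeal_vanish z J hJ)

end Pool.Agent.Results.MP_8296bc_an.HolomorphicFunctions
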