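import Pool.Agent.H474_Inj.PSMax

/-!
# Fréchet algebras without nonzero injective modules: formal power series

The Fréchet algebra `ℂ[[X]]` of formal power series has no nonzero injective unital Fréchet modules,
and the Fréchet algebra (without unit) `X ℂ[[X]]` has no nonzero injective Fréchet modules.
-/

open scoped PowerSeries.WithPiTopology

universe u

namespace Pool.Agent.Results.MP_5446c4_an.FormalPowerSeries

open Pool.Agent.H474_Inj

theorem result :
    (FrechetAlgebra (PowerSeries ℂ) ∧ ∀ J : FrechetModule.{u} (PowerSeries ℂ),
      Unital J → UInjective J → Subsingleton J.carrier) ∧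
    FrechetAlgebra PSIdeal ∧
      ∀ J : FrechetModule.{u} PSIdeal, Injective J → Subsingleton J.carrier :=
  ⟨⟨instPSA, ps_vanish⟩, psIdeal_frechet, psIdeal_vanish⟩

end Pool.Agent.Results.MP_5446c4_an.FormalPowerSeries
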